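import Pool.Agent.Helper84.Places.Constr

/-!
For every infinite set of places there is a sequence in which the words at these places have the
expected frequencies.
-/

set_option autoImplicit false

namespace Pool.Agent.Helper84.Places

open Finset Filter Topology MeasureTheory ProbabilityTheory

variable {b : ℕ} [NeZero b]

/-- the uniform measure on the letters -/
noncomputable def unif (b : ℕ) [NeZero b] : Measure (Fin b) :=
  (PMF.uniformOfFintype (Fin b)).toMeasure

instance : IsProbabilityMeasure (unif b) := by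
  unfold unif
  infer_instance

/-- random sequences -/
noncomputable def ran (b : ℕ) [NeZero b] : Measure (ℕ → Fin b) :=
  Measure.infinitePi fun _ : ℕ => unif b

instance : IsProbabilityMeasure (ran b) := by
  unfold ran
  infer_instance

/-- the event that the word `w` stands at the place `s` -/
def ev {k : ℕ} (w : Fin k → Fin b) (s : ℕ) : Set (ℕ → Fin b) := {y | wd y k s = w}

/-- the coordinates of this event -/
def co (k s : ℕ) : Finset ℕ := Finset.Ico s (s + k)

/-- the letters of the word -/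
def le' {k : ℕ} (w : Fin k → Fin b) (s t : ℕ) : Fin b := if h : t - s < k then w ⟨t - s, h⟩ else 0

lemma ev_eq {k : ℕ} (w : Fin k → Fin b) (s : ℕ) :
    ev w s = Set.pi (co k s) (fun t => {le' w s t}) := by
  ext y
  unfold ev co
  simp only [Set.mem_ofPred_eq, Set.mem_pi, Finset.coe_Ico, Set.mem_Ico, Set.mem_singleton_iff]
  constructor
  · intro h t ht
    unfold le'
    rw [dif_pos (by omega), ← h]
    unfold wd
    congr 1
    simp only
    omega
  · intro h
    funext j
    have := h (s + j) ⟨by omega, by omega⟩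
    unfold wd
    rw [this]
    unfold le'
    rw [dif_pos (by omega)]
    congr 1
    rw [Fin.ext_iff]
    simp only
    omega

lemma ev_meas {k : ℕ} (w : Fin k → Fin b) (s : ℕ) : MeasurableSet (ev w s) := by
  rw [ev_eq]
  exact MeasurableSet.pi (Finset.countable_toSet _) fun _ _ => MeasurableSet.of_discrete

lemma ran_ev {k : ℕ} (w : Fin k → Fin b) (s : ℕ) :
    ran b (ev w s) = (1 / (b : ENNReal)) ^ k := by
  rw [ev_eq]
  unfold ran
  rw [Measure.infinitePi_pi _ (fun _ _ => MeasurableSet.of_discrete)]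
  have h : ∀ t, unif b {le' w s t} = 1 / (b : ENNReal) := by
    intro t
    unfold unif
    rw [PMF.toMeasure_uniformOfFintype_apply _ MeasurableSet.of_discrete]
    simp
  simp_rw [h]
  rw [Finset.prod_const]
  congr 1
  unfold co
  rw [Nat.card_Ico]
  omega

lemma ran_real {k : ℕ} (w : Fin k → Fin b) (s : ℕ) : (ran b).real (ev w s) = pb b k := by
  unfold Measure.real pb
  rw [ran_ev]
  simp

/-- the indicator -/
noncomputable def iv {k : ℕ} (w : Fin k → Fin b) (s : ℕ) : (ℕ → Fin b) → ℝ :=
  (ev w s).indicator fun _ => 1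

lemma iv_meas {k : ℕ} (w : Fin k → Fin b) (s : ℕ) : Measurable (iv w s) :=
  measurable_const.indicator (ev_meas w s)

omit [NeZero b] in
lemma iv_eq {k : ℕ} (w : Fin k → Fin b) (s : ℕ) (y : ℕ → Fin b) : iv w s y = ci y w s := by
  classical
  unfold iv ci ev Set.indicator
  simp only [Set.mem_ofPred_eq]

lemma iv_indep {k : ℕ} (w : Fin k → Fin b) {s t : ℕ} (hst : s + k ≤ t ∨ t + k ≤ s) :
    IndepFun (iv w s) (iv w t) (ran b) := by
  classical
  have hi : iIndepFun (fun (i : ℕ) (y : ℕ → Fin b) => y i) (ran b) :=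
    iIndepFun_infinitePi (P := fun _ : ℕ => unif b) (X := fun _ => id) (fun _ => measurable_id)
  have hdisj : Disjoint (co k s) (co k t) := by
    rw [Finset.disjoint_left]
    intro x h1 h2
    unfold co at h1 h2
    rw [Finset.mem_Ico] at h1 h2
    omega
  have h := hi.indepFun_finset (co k s) (co k t) hdisj (fun i => measurable_pi_apply i)
  have hφ : ∀ r : ℕ, ∃ φ : (co k r → Fin b) → ℝ, Measurable φ ∧
      iv w r = φ ∘ fun y (i : co k r) => y i := by
    intro r
    refine ⟨fun g => if ∀ i : co k r, g i = le' w r i then 1 else 0,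
      Measurable.of_discrete, ?_⟩
    funext y
    unfold iv Set.indicator
    rw [ev_eq]
    simp only [Function.comp, Set.mem_pi, Set.mem_singleton_iff]
    congr 1
    apply propext
    constructor
    · intro h i
      exact h i i.2
    · intro h i hi
      exact h ⟨i, hi⟩
  obtain ⟨φ, hφ1, hφ2⟩ := hφ s
  obtain ⟨ψ, hψ1, hψ2⟩ := hφ t
  rw [hφ2, hψ2]
  exact h.comp hφ1 hψ1

lemma iv_ident {k : ℕ} (w : Fin k → Fin b) (s t : ℕ) :
    IdentDistrib (iv w s) (iv w t) (ran b) (ran b) := by
  classical
  refine ⟨(iv_meas w s).aemeasurable, (iv_meas w t).aemeasurable, ?_⟩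
  ext B hB
  rw [Measure.map_apply (iv_meas w s) hB, Measure.map_apply (iv_meas w t) hB]
  have hc : ran b (ev w s)ᶜ = ran b (ev w t)ᶜ := by
    rw [prob_compl_eq_one_sub (ev_meas w s), prob_compl_eq_one_sub (ev_meas w t), ran_ev, ran_ev]
  have h : ∀ r, iv w r ⁻¹' B =
      if (1 : ℝ) ∈ B then (if (0 : ℝ) ∈ B then Set.univ else ev w r)
      else (if (0 : ℝ) ∈ B then (ev w r)ᶜ else ∅) := by
    intro r
    ext y
    unfold iv Set.indicator
    rw [Set.mem_preimage]
    by_cases hy : y ∈ ev w r
    · simp only [if_pos hy]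
      split_ifs <;> simp [*]
    · simp only [if_neg hy]
      split_ifs <;> simp [*]
  rw [h s, h t]
  split_ifs
  · rfl
  · rw [ran_ev, ran_ev]
  · exact hc
  · rfl

omit [NeZero b] in
/-- the indicators along an enumeration -/
lemma sum_nth (R : Set ℕ) [DecidablePred (· ∈ R)] {k : ℕ} (y : ℕ → Fin b) (w : Fin k → Fin b)
    (N : ℕ) : (cS R y N w : ℝ) = ∑ i ∈ Finset.range (nS R N), ci y w (Nat.nth (· ∈ R) i) := by
  classical
  have hn : ∀ N, nS R N = Nat.count (· ∈ R) N := by
    intro N
    unfold nS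
    rw [Nat.count_eq_card_filter_range]
    congr
  have hc : (cS R y N w : ℝ) = ∑ n ∈ Finset.range N, if n ∈ R then ci y w n else 0 := by
    unfold cS ci
    rw [Finset.card_filter]
    push_cast
    apply Finset.sum_congr rfl
    intro n _
    by_cases h1 : n ∈ R <;> by_cases h2 : wd y k n = w <;> simp [h1, h2]
  rw [hc, hn]
  clear hc
  induction N with
  | zero => simp
  | succ N ih =>
    rw [Finset.sum_range_succ, ih, Nat.count_succ]
    split_ifs with h
    · rw [Finset.sum_range_succ, Nat.nth_count h]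
    · simp

omit [NeZero b] in
lemma nS_mono {R S : Set ℕ} (h : R ⊆ S) (N : ℕ) : nS R N ≤ nS S N := by
  classical
  unfold nS
  apply Finset.card_le_card
  intro s hs
  rw [Finset.mem_filter] at hs ⊢
  exact ⟨hs.1, h hs.2⟩

omit [NeZero b] in
lemma nS_le_card {R : Set ℕ} (h : R.Finite) (N : ℕ) : nS R N ≤ h.toFinset.card := by
  classical
  unfold nS
  apply Finset.card_le_card
  intro s hs
  rw [Finset.mem_filter] at hs
  exact h.mem_toFinset.2 hs.2

omit [NeZero b] in
lemma cS_le_nS (R : Set ℕ) (y : ℕ → Fin b) {k : ℕ} (w : Fin k → Fin b) (N : ℕ) :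
    cS R y N w ≤ nS R N := by
  classical
  unfold cS nS
  apply Finset.card_le_card
  intro s hs
  rw [Finset.mem_filter] at hs ⊢
  exact ⟨hs.1, hs.2.1⟩

omit [NeZero b] in
lemma sum_classes {k : ℕ} (hk : 0 < k) {S : Set ℕ} {R : ℕ → Set ℕ}
    (hR : ∀ r s, s ∈ R r ↔ s ∈ S ∧ s % k = r) (N : ℕ) :
    ∑ r ∈ Finset.range k, nS (R r) N = nS S N := by
  classical
  unfold nS
  rw [Finset.card_eq_sum_card_fiberwise (f := fun s => s % k) (t := Finset.range k)]
  · apply Finset.sum_congr rfl
    intro r _
    congr 1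
    ext s
    simp only [Finset.mem_filter, Finset.mem_range, hR]
    tauto
  · intro s _
    simp only [Finset.coe_range, Set.mem_Iio]
    exact Nat.mod_lt _ hk

omit [NeZero b] in
lemma sum_classes' {k : ℕ} (hk : 0 < k) {S : Set ℕ} {R : ℕ → Set ℕ}
    (hR : ∀ r s, s ∈ R r ↔ s ∈ S ∧ s % k = r) (y : ℕ → Fin b) (w : Fin k → Fin b) (N : ℕ) :
    ∑ r ∈ Finset.range k, cS (R r) y N w = cS S y N w := by
  classical
  unfold cS
  rw [Finset.card_eq_sum_card_fiberwise (f := fun s => s % k) (t := Finset.range k)]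
  · apply Finset.sum_congr rfl
    intro r _
    congr 1
    ext s
    simp only [Finset.mem_filter, Finset.mem_range, hR]
    tauto
  · intro s _
    simp only [Finset.coe_range, Set.mem_Iio]
    exact Nat.mod_lt _ hk

/-- separated places -/
lemma ae_sep {R : Set ℕ} (hR : R.Infinite) {k : ℕ}
    (hsep : ∀ s ∈ R, ∀ t ∈ R, s < t → s + k ≤ t) (w : Fin k → Fin b) :
    ∀ᵐ y ∂(ran b), Tendsto (fun N : ℕ => (cS R y N w : ℝ) / nS R N) atTop (𝓝 (pb b k)) := by
  classical
  have hinf : (Set.ofPred (· ∈ R)).Infinite := hR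
  have hmono := Nat.nth_strictMono hinf
  have hmem : ∀ i, Nat.nth (· ∈ R) i ∈ R := fun i => Nat.nth_mem_of_infinite hinf i
  have h := strong_law_ae_real (μ := ran b) (fun i => iv w (Nat.nth (· ∈ R) i))
    ((integrable_const (1 : ℝ)).indicator (ev_meas w _))
    (fun i j hij => by
      apply iv_indep
      rcases lt_or_gt_of_ne hij with h | h
      · exact Or.inl (hsep _ (hmem i) _ (hmem j) (hmono h))
      · exact Or.inr (hsep _ (hmem j) _ (hmem i) (hmono h)))
    (fun i => iv_ident w _ _)
  have hE : ∫ y, iv w (Nat.nth (· ∈ R) 0) y ∂(ran b) = pb b k := by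
    unfold iv
    rw [integral_indicator_const _ (ev_meas w _), ran_real]
    simp
  rw [hE] at h
  filter_upwards [h] with y hy
  refine (hy.comp (nS_tendsto hR)).congr fun N => ?_
  simp only [Function.comp]
  rw [sum_nth]
  simp only [iv_eq]

/-- all sets of places -/
lemma ae_all {S : Set ℕ} (hS : S.Infinite) {k : ℕ} (hk : 0 < k) (w : Fin k → Fin b) :
    ∀ᵐ y ∂(ran b), Tendsto (fun N : ℕ => (cS S y N w : ℝ) / nS S N) atTop (𝓝 (pb b k)) := by
  classical
  obtain ⟨R, hR⟩ : ∃ R : ℕ → Set ℕ, ∀ r s, s ∈ R r ↔ s ∈ S ∧ s % k = r :=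
    ⟨fun r => {s | s ∈ S ∧ s % k = r}, fun r s => Iff.rfl⟩
  have h1 : ∀ r ∈ Finset.range k, ∀ᵐ y ∂(ran b), Tendsto (fun N : ℕ =>
      ((cS (R r) y N w : ℝ) - pb b k * nS (R r) N) / nS S N) atTop (𝓝 0) := by
    intro r _
    by_cases hinf : (R r).Infinite
    · have h2 := ae_sep hinf (k := k) (by
        intro s hs t ht hst
        have hs := ((hR r s).1 hs).2
        have ht := ((hR r t).1 ht).2
        have h3 : k ∣ t - s := (Nat.modEq_iff_dvd' hst.le).1 (by
          unfold Nat.ModEq
          rw [hs, ht])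
        have := Nat.le_of_dvd (by omega) h3
        omega) w
      filter_upwards [h2] with y hy
      have h3 : Tendsto (fun N : ℕ => (cS (R r) y N w : ℝ) / nS (R r) N - pb b k) atTop (𝓝 0) := by
        have := hy.sub_const (pb b k)
        rwa [sub_self] at this
      refine squeeze_zero_norm' ?_ (tendsto_norm_zero.comp h3)
      filter_upwards [(nS_tendsto hinf).eventually_gt_atTop 0] with N hN
      have a1 : (0 : ℝ) < nS (R r) N := by exact_mod_cast hN
      have a2 : (nS (R r) N : ℝ) ≤ nS S N := by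
        exact_mod_cast nS_mono (fun s hs => ((hR r s).1 hs).1) N
      simp only [Function.comp]
      rw [norm_div, Real.norm_natCast]
      have e : (cS (R r) y N w : ℝ) / nS (R r) N - pb b k =
          ((cS (R r) y N w : ℝ) - pb b k * nS (R r) N) / nS (R r) N := by
        field_simp
      rw [e, norm_div, Real.norm_natCast]
      exact div_le_div_of_nonneg_left (norm_nonneg _) a1 a2
    · rw [Set.not_infinite] at hinf
      refine Eventually.of_forall fun y => ?_
      have h3 : Tendsto (fun N : ℕ => (hinf.toFinset.card : ℝ) / nS S N) atTop (𝓝 0) :=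
        tendsto_const_nhds.div_atTop (tendsto_natCast_atTop_atTop.comp (nS_tendsto hS))
      refine squeeze_zero_norm (fun N => ?_) h3
      rw [norm_div, Real.norm_natCast, Real.norm_eq_abs]
      apply div_le_div_of_nonneg_right _ (Nat.cast_nonneg _)
      have a1 := nS_le_card hinf N
      have a2 := cS_le_nS (R r) y w N
      have a3 := pb_mem (b := b) (m := k)
      have a4 : (nS (R r) N : ℝ) ≤ hinf.toFinset.card := by exact_mod_cast a1
      have a5 : (cS (R r) y N w : ℝ) ≤ nS (R r) N := by exact_mod_cast a2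
      have a6 : (0 : ℝ) ≤ cS (R r) y N w := Nat.cast_nonneg _
      have a7 : (0 : ℝ) ≤ nS (R r) N := Nat.cast_nonneg _
      rw [abs_le]
      constructor <;> nlinarith
  have h2 : ∀ᵐ y ∂(ran b), ∀ r ∈ Finset.range k, Tendsto (fun N : ℕ =>
      ((cS (R r) y N w : ℝ) - pb b k * nS (R r) N) / nS S N) atTop (𝓝 0) := by
    exact (Filter.eventually_all_finset _).2 h1
  filter_upwards [h2] with y hy
  have h3 := tendsto_finsetSum (Finset.range k) hy
  rw [Finset.sum_const_zero] at h3
  have h4 : ∀ N : ℕ, ∑ r ∈ Finset.range k,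
      ((cS (R r) y N w : ℝ) - pb b k * nS (R r) N) / nS S N =
        ((cS S y N w : ℝ) - pb b k * nS S N) / nS S N := by
    intro N
    rw [← Finset.sum_div, Finset.sum_sub_distrib, ← Finset.mul_sum]
    have e1 : ∑ r ∈ Finset.range k, (cS (R r) y N w : ℝ) = cS S y N w := by
      exact_mod_cast sum_classes' hk hR y w N
    have e2 : ∑ r ∈ Finset.range k, (nS (R r) N : ℝ) = nS S N := by
      exact_mod_cast sum_classes hk hR N
    rw [e1, e2]
  simp_rw [h4] at h3
  have h5 := h3.add_const (pb b k)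
  rw [zero_add] at h5
  refine h5.congr' ?_
  filter_upwards [(nS_tendsto hS).eventually_gt_atTop 0] with N hN
  have a1 : (nS S N : ℝ) ≠ 0 := by
    have : (0 : ℝ) < nS S N := by exact_mod_cast hN
    exact this.ne'
  field_simp
  ring

/-- **A sequence with the expected frequencies.** -/
theorem exists_seq_S (b : ℕ) [NeZero b] {S : Set ℕ} (hS : S.Infinite) :
    ∃ y : ℕ → Fin b, ∀ k : ℕ, 0 < k → ∀ w : Fin k → Fin b,
      Tendsto (fun N : ℕ => (cS S y N w : ℝ) / nS S N) atTop (𝓝 (pb b k)) := by
  have h : ∀ᵐ y ∂(ran b), ∀ k : ℕ, 0 < k → ∀ w : Fin k → Fin b,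
      Tendsto (fun N : ℕ => (cS S y N w : ℝ) / nS S N) atTop (𝓝 (pb b k)) := by
    rw [ae_all_iff]
    intro k
    by_cases hk : 0 < k
    · have h2 : ∀ᵐ y ∂(ran b), ∀ w : Fin k → Fin b,
          Tendsto (fun N : ℕ => (cS S y N w : ℝ) / nS S N) atTop (𝓝 (pb b k)) := by
        rw [ae_all_iff]
        intro w
        exact ae_all hS hk w
      filter_upwards [h2] with y hy _ w
      exact hy w
    · exact Eventually.of_forall fun y hk2 => absurd hk2 hk
  exact h.exists

end Pool.Agent.Helper84.Places
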