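import Pool.Agent.Helper84.Places.Rand

/-!
A real number with given digits.
-/

set_option autoImplicit false

namespace Pool.Agent.Helper84.Places

open Finset

variable {b : ℕ}

lemma ofDigits_lt_one (hb : 2 ≤ b) (a : ℕ → Fin b) (j : ℕ) (hj : (a j : ℕ) ≠ b - 1) :
    Real.ofDigits a < 1 := by
  have h1 := Real.ofDigits_const_last_eq_one' (b := b) (by omega)
  rw [← h1]
  unfold Real.ofDigits
  refine Summable.tsum_lt_tsum (i := j) (fun n => ?_) ?_ Real.summable_ofDigitsTerm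
    Real.summable_ofDigitsTerm
  · unfold Real.ofDigitsTerm
    refine mul_le_mul_of_nonneg_right ?_ (by positivity)
    have h2 := (a n).2
    have h3 : (a n : ℕ) ≤ b - 1 := by omega
    show ((a n : ℕ) : ℝ) ≤ ((b - 1 : ℕ) : ℝ)
    exact_mod_cast h3
  · unfold Real.ofDigitsTerm
    refine mul_lt_mul_of_pos_right ?_ (by positivity)
    have h2 := (a j).2
    have h3 : (a j : ℕ) < b - 1 := by omega
    show ((a j : ℕ) : ℝ) < ((b - 1 : ℕ) : ℝ)
    exact_mod_cast h3

/-- a real number with given digits -/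
theorem exists_real [NeZero b] (hb : 2 ≤ b) (a : ℕ → Fin b) (ha : ∀ N, ∃ n, N ≤ n ∧ a n = 0) :
    ∃ y : ℝ, ∀ i : ℕ, ⌊y * (b : ℝ) ^ (i + 1)⌋ % (b : ℤ) = ((a i : ℕ) : ℤ) := by
  have hb0 : (b : ℝ) ≠ 0 := by exact_mod_cast (NeZero.ne b)
  refine ⟨Real.ofDigits a, fun i => ?_⟩
  have h1 := Real.ofDigits_eq_sum_add_ofDigits a (i + 1)
  have h2 : Real.ofDigits a * (b : ℝ) ^ (i + 1) =
      ((∑ j ∈ Finset.range (i + 1), (a j : ℕ) * b ^ (i - j) : ℕ) : ℝ) +
        Real.ofDigits (fun j => a (j + (i + 1))) := by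
    rw [h1, add_mul, Finset.sum_mul]
    congr 1
    · push_cast
      refine Finset.sum_congr rfl fun j hj => ?_
      rw [Finset.mem_range] at hj
      unfold Real.ofDigitsTerm
      have : (b : ℝ) ^ (i + 1) = (b : ℝ) ^ (j + 1) * (b : ℝ) ^ (i - j) := by
        rw [← pow_add]; congr 1; omega
      rw [this]
      field_simp
    · rw [mul_comm, ← mul_assoc, mul_inv_cancel₀ (pow_ne_zero _ hb0), one_mul]
  have h3 : 0 ≤ Real.ofDigits (fun j => a (j + (i + 1))) := Real.ofDigits_nonneg _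
  have h4 : Real.ofDigits (fun j => a (j + (i + 1))) < 1 := by
    obtain ⟨n, hn, hne⟩ := ha (i + 1)
    refine ofDigits_lt_one hb _ (n - (i + 1)) ?_
    have h5 : n - (i + 1) + (i + 1) = n := by omega
    show (a (n - (i + 1) + (i + 1)) : ℕ) ≠ b - 1
    rw [h5, hne]
    simp
    omega
  have h5 : ⌊Real.ofDigits a * (b : ℝ) ^ (i + 1)⌋ =
      ((∑ j ∈ Finset.range (i + 1), (a j : ℕ) * b ^ (i - j) : ℕ) : ℤ) := by
    rw [h2, Int.floor_natCast_add, Int.floor_eq_zero_iff.2 ⟨h3, h4⟩, add_zero]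
  rw [h5]
  have h6 : (∑ j ∈ Finset.range (i + 1), (a j : ℕ) * b ^ (i - j)) % b = (a i : ℕ) := by
    rw [Finset.sum_range_succ, Nat.sub_self, pow_zero, mul_one]
    have h7 : b ∣ ∑ j ∈ Finset.range i, (a j : ℕ) * b ^ (i - j) := by
      apply Finset.dvd_sum
      intro j hj
      rw [Finset.mem_range] at hj
      have : i - j = (i - j - 1) + 1 := by omega
      rw [this, pow_succ, ← mul_assoc]
      exact dvd_mul_left _ _
    rw [Nat.add_mod, Nat.mod_eq_zero_of_dvd h7, zero_add, Nat.mod_mod,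
      Nat.mod_eq_of_lt (a i).2]
  exact_mod_cast h6

end Pool.Agent.Helper84.Places
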