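import Pool.Agent.Helper84.Places.Main

/-!
Sets of places which do not suffice.
-/

set_option autoImplicit false

namespace Pool.Agent.Helper84.Places

open Finset Filter Topology

/-- the places at which the windows are long -/
lemma exists_seq {p : ℕ → ℕ → Prop} (h : ∀ j M : ℕ, ∃ N, M ≤ N ∧ p j N) :
    ∃ N : ℕ → ℕ, StrictMono N ∧ ∀ j, p j (N j) := by
  choose f hf1 hf2 using h
  let N : ℕ → ℕ := fun j => Nat.rec (f 0 0) (fun j r => f (j + 1) (r + 1)) j
  have hN0 : N 0 = f 0 0 := rfl
  have hN1 : ∀ j, N (j + 1) = f (j + 1) (N j + 1) := fun _ => rfl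
  refine ⟨N, strictMono_nat_of_lt_succ fun j => ?_, fun j => ?_⟩
  · have := hf1 (j + 1) (N j + 1)
    rw [hN1]
    omega
  · rcases j with _ | j
    · exact hf2 0 0
    · exact hf2 (j + 1) (N j + 1)

/-- the number of the terms of the sequence up to `n` -/
def gg (N : ℕ → ℕ) (n : ℕ) : ℕ := ((Finset.range (n + 1)).filter fun j => N j ≤ n).card

lemma gg_mono (N : ℕ → ℕ) : Monotone (gg N) := by
  intro n n' h
  unfold gg
  apply Finset.card_le_card
  intro j hj
  rw [Finset.mem_filter, Finset.mem_range] at hj ⊢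
  exact ⟨by omega, hj.2.trans h⟩

lemma gg_lt {N : ℕ → ℕ} (hN : StrictMono N) {n j : ℕ} (h : n < N j) : gg N n ≤ j := by
  unfold gg
  calc _ ≤ (Finset.range j).card := by
        apply Finset.card_le_card
        intro i hi
        rw [Finset.mem_filter] at hi
        rw [Finset.mem_range]
        exact hN.lt_iff_lt.1 (hi.2.trans_lt h)
    _ = j := Finset.card_range j

lemma le_gg {N : ℕ → ℕ} (hN : StrictMono N) {n j : ℕ} (h : N j ≤ n) : j + 1 ≤ gg N n := by
  unfold gg
  calc j + 1 = (Finset.range (j + 1)).card := (Finset.card_range _).symm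
    _ ≤ _ := by
        apply Finset.card_le_card
        intro i hi
        rw [Finset.mem_range] at hi
        rw [Finset.mem_filter, Finset.mem_range]
        have h1 : N i ≤ N j := hN.monotone (by omega)
        have h2 : i ≤ N i := hN.le_apply
        exact ⟨by omega, h1.trans h⟩

variable {b : ℕ} [NeZero b]

open Classical in
/-- the changed sequence -/
noncomputable def ch (S : Set ℕ) (N : ℕ → ℕ) (y : ℕ → Fin b) (n : ℕ) : Fin b :=
  if ∀ i < gg N n, i ≤ n → n - i ∉ S then 0 else y n

lemma wd_ch (S : Set ℕ) {N : ℕ → ℕ} (hN : StrictMono N) (y : ℕ → Fin b) {k s : ℕ} (hs : s ∈ S)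
    (hk : N k ≤ s) : wd (ch S N y) k s = wd y k s := by
  funext j
  unfold wd ch
  rw [if_neg]
  intro h
  have h1 := le_gg hN hk
  have h2 := gg_mono N (by omega : s ≤ s + j)
  refine h j (by omega) (by omega) ?_
  rw [Nat.add_sub_cancel]
  exact hs

lemma cS_ch (S : Set ℕ) {N : ℕ → ℕ} (hN : StrictMono N) (y : ℕ → Fin b) {k : ℕ}
    (w : Fin k → Fin b) (n : ℕ) :
    |(cS S (ch S N y) n w : ℝ) - cS S y n w| ≤ N k := by
  classical
  have h : ∀ (a a' : ℕ → Fin b), (∀ s ∈ S, N k ≤ s → wd a k s = wd a' k s) →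
      cS S a n w ≤ cS S a' n w + N k := by
    intro a a' haa
    unfold cS
    calc ((Finset.range n).filter fun i => i ∈ S ∧ wd a k i = w).card
        ≤ (((Finset.range n).filter fun i => i ∈ S ∧ wd a' k i = w) ∪ Finset.range (N k)).card := by
          apply Finset.card_le_card
          intro s hs
          rw [Finset.mem_filter, Finset.mem_range] at hs
          rw [Finset.mem_union, Finset.mem_filter, Finset.mem_range, Finset.mem_range]
          by_cases hsN : N k ≤ s
          · left
            refine ⟨hs.1, hs.2.1, ?_⟩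
            rw [← haa s hs.2.1 hsN]
            exact hs.2.2
          · right
            omega
      _ ≤ _ := (Finset.card_union_le _ _).trans (by rw [Finset.card_range])
  have h1 := h (ch S N y) y fun s hs hk => wd_ch S hN y hs hk
  have h2 := h y (ch S N y) fun s hs hk => (wd_ch S hN y hs hk).symm
  have h1' : (cS S (ch S N y) n w : ℝ) ≤ cS S y n w + N k := by exact_mod_cast h1
  have h2' : (cS S y n w : ℝ) ≤ cS S (ch S N y) n w + N k := by exact_mod_cast h2
  rw [abs_le]
  constructor <;> linarith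

/-- many zeros -/
lemma zeros (S : Set ℕ) {V : Set ℕ} (hV : ∀ n, n ∈ V) {N : ℕ → ℕ} (hN : StrictMono N)
    (y : ℕ → Fin b) {j k : ℕ} (hk : k ≤ j) :
    miss S (2 * (j + 1)) (N j) ≤
      cS V (ch S N y) (N j) (fun _ : Fin k => (0 : Fin b)) + 2 * (j + 1) := by
  classical
  unfold miss cS
  have hsub : ((Finset.range (N j)).filter fun n => ∀ i < 2 * (j + 1), n + i ∉ S) ⊆
      (((Finset.range (N j)).filter fun n => n ∈ V ∧
        wd (ch S N y) k n = fun _ => (0 : Fin b)).image (· - (j + 1))) ∪
        Finset.Ico (N j - 2 * (j + 1)) (N j) := by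
    intro n hn
    rw [Finset.mem_filter, Finset.mem_range] at hn
    rw [Finset.mem_union, Finset.mem_Ico, Finset.mem_image]
    by_cases hn2 : n < N j - 2 * (j + 1)
    · left
      refine ⟨n + (j + 1), ?_, by omega⟩
      rw [Finset.mem_filter, Finset.mem_range]
      refine ⟨by omega, hV _, ?_⟩
      funext i
      unfold wd ch
      rw [if_pos]
      intro l hl _
      have h1 : gg N (n + (j + 1) + i) ≤ j := gg_lt hN (by omega)
      have h2 := hn.2 (j + 1 + i - l) (by omega)
      have e : n + (j + 1) + (i : ℕ) - l = n + (j + 1 + i - l) := by omega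
      rw [e]
      exact h2
    · right
      omega
  refine (Finset.card_le_card hsub).trans ((Finset.card_union_le _ _).trans ?_)
  apply Nat.add_le_add Finset.card_image_le
  rw [Nat.card_Ico]
  omega

/-- the number of the elements tends to infinity -/
lemma nS_tendsto {S : Set ℕ} (hS : S.Infinite) : Tendsto (nS S) atTop atTop := by
  classical
  apply tendsto_atTop_atTop.2
  intro M
  obtain ⟨T, hT, hTc⟩ := hS.exists_subset_card_eq M
  obtain ⟨B, hB⟩ := T.exists_nat_subset_range
  refine ⟨B, fun n hn => ?_⟩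
  rw [← hTc]
  unfold nS
  apply Finset.card_le_card
  intro s hs
  rw [Finset.mem_filter, Finset.mem_range]
  have := Finset.mem_range.1 (hB hs)
  exact ⟨by omega, hT hs⟩

/-- **Sets of places which do not suffice.** -/
theorem fail (hb : 2 ≤ b) {S : Set ℕ} (hS : S.Infinite) {y : ℕ → Fin b}
    (hy : ∀ k : ℕ, 0 < k → ∀ w : Fin k → Fin b,
      Tendsto (fun N : ℕ => (cS S y N w : ℝ) / nS S N) atTop (𝓝 (pb b k)))
    {ε : ℝ} (hε : 0 < ε) (hfail : ∀ K : ℕ, ∃ᶠ N : ℕ in atTop, ε * N < miss S K N) :
    ∃ a : ℕ → Fin b, (∀ M, ∃ n, M ≤ n ∧ a n = 0) ∧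
      (∀ k : ℕ, 0 < k → ∀ w : Fin k → Fin b,
        Tendsto (fun N : ℕ => (cS S a N w : ℝ) / nS S N) atTop (𝓝 (pb b k))) ∧
      ∃ k : ℕ, 0 < k ∧ ∃ w : Fin k → Fin b,
        ¬ Tendsto (fun N : ℕ => (cS Set.univ a N w : ℝ) / N) atTop (𝓝 (pb b k)) := by
  classical
  obtain ⟨N, hN, hN2⟩ := exists_seq (p := fun j n => ε * n < miss S (2 * (j + 1)) n ∧
    4 * ((j : ℝ) + 1) ≤ ε * n ∧ 0 < n) (by
    intro j M
    have h1 := hfail (2 * (j + 1))
    obtain ⟨B, hB⟩ := exists_nat_ge (4 * ((j : ℝ) + 1) / ε)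
    obtain ⟨n, hn1, hn2, hn3⟩ := (h1.and_eventually
      ((eventually_ge_atTop M).and (eventually_ge_atTop (B + 1)))).exists
    refine ⟨n, hn2, hn1, ?_, by omega⟩
    rw [div_le_iff₀ hε] at hB
    have : (B : ℝ) ≤ n := by exact_mod_cast (by omega : B ≤ n)
    nlinarith)
  have hzero : ∀ k j : ℕ, k ≤ j → ε / 2 * N j ≤
      cS Set.univ (ch S N y) (N j) (fun _ : Fin k => (0 : Fin b)) := by
    intro k j hkj
    have h1 := zeros S (V := Set.univ) (fun n => Set.mem_univ n) hN y hkj
    obtain ⟨h2, h3, -⟩ := hN2 j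
    have h4 : (miss S (2 * (j + 1)) (N j) : ℝ) ≤
        cS Set.univ (ch S N y) (N j) (fun _ : Fin k => (0 : Fin b)) + 2 * (j + 1) := by
      exact_mod_cast h1
    linarith
  have hNt : Tendsto N atTop atTop := hN.tendsto_atTop
  refine ⟨ch S N y, ?_, ?_, ?_⟩
  · intro M
    by_contra hcon
    push Not at hcon
    have h1 : ∀ (V : Set ℕ) (n : ℕ), cS V (ch S N y) n (fun _ : Fin 1 => (0 : Fin b)) ≤ M := by
      intro V n
      unfold cS
      calc _ ≤ (Finset.range M).card := by
            apply Finset.card_le_card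
            intro s hs
            rw [Finset.mem_filter] at hs
            rw [Finset.mem_range]
            by_contra hsM
            push Not at hsM
            have h2 := congrFun hs.2.2 0
            unfold wd at h2
            exact hcon s hsM (by simpa using h2)
        _ = M := Finset.card_range M
    obtain ⟨B, hB⟩ := exists_nat_gt ((M : ℝ) / (ε / 2))
    obtain ⟨j, hj1, hj2⟩ := ((hNt.eventually_ge_atTop B).and (eventually_ge_atTop 1)).exists
    have h3 := hzero 1 j hj2
    have h4 : (cS Set.univ (ch S N y) (N j) (fun _ : Fin 1 => (0 : Fin b)) : ℝ) ≤ M := by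
      exact_mod_cast h1 _ (N j)
    rw [div_lt_iff₀ (by positivity)] at hB
    have h5 : (B : ℝ) ≤ N j := by exact_mod_cast hj1
    nlinarith
  · intro k hk w
    have h1 := hy k hk w
    have h2 : Tendsto (fun n : ℕ => (cS S (ch S N y) n w : ℝ) / nS S n -
        (cS S y n w : ℝ) / nS S n) atTop (𝓝 0) := by
      have h3 : Tendsto (fun n : ℕ => (N k : ℝ) / nS S n) atTop (𝓝 0) :=
        tendsto_const_nhds.div_atTop (tendsto_natCast_atTop_atTop.comp (nS_tendsto hS))
      refine squeeze_zero_norm (fun n => ?_) h3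
      rw [← sub_div, Real.norm_eq_abs, abs_div, Nat.abs_cast]
      exact div_le_div_of_nonneg_right (cS_ch S hN y w n) (Nat.cast_nonneg _)
    have h3 := h2.add h1
    rw [zero_add] at h3
    exact h3.congr fun n => by ring
  · -- a long word of zeros
    obtain ⟨k, hk⟩ := exists_pow_lt_of_lt_one (by positivity : 0 < ε / 2)
      (by norm_num : (1 : ℝ) / 2 < 1)
    have hb2 : (2 : ℝ) ≤ b := by exact_mod_cast hb
    have hpb : pb b (k + 1) < ε / 2 := by
      unfold pb
      calc 1 / (b : ℝ) ^ (k + 1) ≤ 1 / (2 : ℝ) ^ (k + 1) := by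
            apply one_div_le_one_div_of_le (by positivity)
            exact pow_le_pow_left₀ (by norm_num) hb2 _
        _ ≤ (1 / 2) ^ k := by
            rw [div_pow, one_pow]
            apply one_div_le_one_div_of_le (by positivity)
            exact pow_le_pow_right₀ (by norm_num) (by omega)
        _ < ε / 2 := hk
    refine ⟨k + 1, by omega, fun _ => 0, fun ht => ?_⟩
    have h1 := (ht.comp hNt).eventually (gt_mem_nhds hpb)
    obtain ⟨j, hj1, hj2⟩ := (h1.and (eventually_ge_atTop (k + 1))).exists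
    have h2 := hzero (k + 1) j hj2
    have h3 : (0 : ℝ) < N j := by exact_mod_cast (hN2 j).2.2
    simp only [Function.comp] at hj1
    rw [div_lt_iff₀ h3] at hj1
    linarith

end Pool.Agent.Helper84.Places
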