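import Pool.Agent.Helper84.Places.Suff

/-!
Sets of places which suffice.
-/

set_option autoImplicit false

namespace Pool.Agent.Helper84.Places

open Finset Filter Topology

variable {b : ℕ} {m : ℕ}

open Classical in
/-- the indicator of the word `u` at the place `n` -/
noncomputable def ci (a : ℕ → Fin b) (u : Fin m → Fin b) (n : ℕ) : ℝ :=
  if wd a m n = u then 1 else 0

lemma ci_mem (a : ℕ → Fin b) (u : Fin m → Fin b) (n : ℕ) : 0 ≤ ci a u n ∧ ci a u n ≤ 1 := by
  unfold ci
  split_ifs <;> norm_num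

lemma sum_ci (a : ℕ → Fin b) (u : Fin m → Fin b) (N : ℕ) :
    ∑ n ∈ Finset.range N, ci a u n = cS Set.univ a N u := by
  classical
  unfold ci cS
  rw [Finset.sum_boole]
  simp

lemma X_wd {L : ℕ} (a : ℕ → Fin b) (u : Fin m → Fin b) (i : Fin L) (n : ℕ) :
    X u i (wd a (L + m) n) = ci a u (n + i) := by
  have h : At u i (wd a (L + m) n) ↔ wd a m (n + i) = u := by
    unfold At
    rw [funext_iff]
    apply forall_congr'
    intro j
    unfold wd
    have : ((pos i j : Fin (L + m)) : ℕ) = i + j := rfl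
    rw [this, add_assoc]
  unfold X ci
  by_cases h1 : At u i (wd a (L + m) n)
  · rw [if_pos h1, if_pos (h.1 h1)]
  · rw [if_neg h1, if_neg (fun h2 => h1 (h.2 h2))]

lemma shift_ci (a : ℕ → Fin b) (u : Fin m → Fin b) (i N : ℕ) :
    |∑ n ∈ Finset.range N, ci a u (n + i) - ∑ n ∈ Finset.range N, ci a u n| ≤ i := by
  have h1 : ∑ n ∈ Finset.range (i + N), ci a u n =
      ∑ n ∈ Finset.range i, ci a u n + ∑ n ∈ Finset.range N, ci a u (n + i) := by
    rw [Finset.sum_range_add]
    congr 1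
    exact Finset.sum_congr rfl fun n _ => by rw [add_comm]
  have h2 : ∑ n ∈ Finset.range (N + i), ci a u n =
      ∑ n ∈ Finset.range N, ci a u n + ∑ n ∈ Finset.range i, ci a u (N + n) :=
    Finset.sum_range_add _ _ _
  rw [add_comm N i, h1] at h2
  have h3 : ∑ n ∈ Finset.range i, ci a u n ≤ i := by
    refine (Finset.sum_le_sum fun n _ => (ci_mem a u n).2).trans (le_of_eq ?_)
    simp
  have h4 : ∑ n ∈ Finset.range i, ci a u (N + n) ≤ i := by
    refine (Finset.sum_le_sum fun n _ => (ci_mem a u (N + n)).2).trans (le_of_eq ?_)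
    simp
  have h5 : 0 ≤ ∑ n ∈ Finset.range i, ci a u n := Finset.sum_nonneg fun n _ => (ci_mem a u n).1
  have h6 : 0 ≤ ∑ n ∈ Finset.range i, ci a u (N + n) :=
    Finset.sum_nonneg fun n _ => (ci_mem a u _).1
  rw [abs_le]
  constructor <;> linarith

variable [NeZero b]

/-- averaging over windows -/
lemma average (a : ℕ → Fin b) (u : Fin m → Fin b) {L : ℕ} (hL : 0 < L) {η : ℝ} (hη : 0 < η)
    (N : ℕ) :
    |(cS Set.univ a N u : ℝ) - pb b m * N| ≤ η * N + cP a (Bad L u η) N + L := by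
  classical
  have hL0 : (0 : ℝ) < L := by exact_mod_cast hL
  set f : ℕ → ℝ := fun n => ∑ i : Fin L, (X u i (wd a (L + m) n) - pb b m) with hf
  have h1 : ∀ n, |f n| ≤ η * L + (if Bad L u η (wd a (L + m) n) then (L : ℝ) else 0) := by
    intro n
    split_ifs with hB
    · have h2 : |f n| ≤ ∑ _i : Fin L, (1 : ℝ) := by
        refine (Finset.abs_sum_le_sum_abs _ _).trans ?_
        apply Finset.sum_le_sum
        intro i _
        have a1 := X_mem u i (wd a (L + m) n)
        have a3 := pb_mem (b := b) (m := m)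
        exact abs_le.2 ⟨by linarith, by linarith⟩
      rw [Finset.sum_const, Finset.card_univ, Fintype.card_fin, nsmul_eq_mul, mul_one] at h2
      have : 0 ≤ η * L := by positivity
      linarith
    · unfold Bad at hB
      push Not at hB
      rw [add_zero]
      exact hB
  have h2 : |∑ n ∈ Finset.range N, f n| ≤ η * L * N + L * cP a (Bad L u η) N := by
    refine (Finset.abs_sum_le_sum_abs _ _).trans ?_
    refine (Finset.sum_le_sum fun n _ => h1 n).trans ?_
    rw [Finset.sum_add_distrib, Finset.sum_const, Finset.card_range, nsmul_eq_mul,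
      ← Finset.sum_filter, Finset.sum_const, nsmul_eq_mul]
    unfold cP
    linarith
  have h3 : ∑ n ∈ Finset.range N, f n =
      ∑ i : Fin L, (∑ n ∈ Finset.range N, ci a u (n + i) - pb b m * N) := by
    simp only [hf]
    rw [Finset.sum_comm]
    apply Finset.sum_congr rfl
    intro i _
    rw [Finset.sum_sub_distrib, Finset.sum_const, Finset.card_range, nsmul_eq_mul, mul_comm]
    congr 1
    exact Finset.sum_congr rfl fun n _ => X_wd a u i n
  have h4 : |∑ n ∈ Finset.range N, f n - L * ((cS Set.univ a N u : ℝ) - pb b m * N)| ≤ L * L := by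
    have h5 : ∑ n ∈ Finset.range N, f n - L * ((cS Set.univ a N u : ℝ) - pb b m * N) =
        ∑ i : Fin L, (∑ n ∈ Finset.range N, ci a u (n + i) - ∑ n ∈ Finset.range N, ci a u n) := by
      rw [h3, ← sum_ci]
      have h6 : (L : ℝ) * (∑ n ∈ Finset.range N, ci a u n - pb b m * N) =
          ∑ _i : Fin L, (∑ n ∈ Finset.range N, ci a u n - pb b m * N) := by
        rw [Finset.sum_const, Finset.card_univ, Fintype.card_fin, nsmul_eq_mul]
      rw [h6, ← Finset.sum_sub_distrib]
      exact Finset.sum_congr rfl fun i _ => by ring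
    rw [h5]
    refine (Finset.abs_sum_le_sum_abs _ _).trans ?_
    have h6 : ∀ i ∈ (Finset.univ : Finset (Fin L)),
        |∑ n ∈ Finset.range N, ci a u (n + i) - ∑ n ∈ Finset.range N, ci a u n| ≤ L := by
      intro i _
      refine (shift_ci a u i N).trans ?_
      exact_mod_cast i.2.le
    refine (Finset.sum_le_sum h6).trans (le_of_eq ?_)
    rw [Finset.sum_const, Finset.card_univ, Fintype.card_fin, nsmul_eq_mul]
  have h5 : L * |(cS Set.univ a N u : ℝ) - pb b m * N| ≤
      L * (η * N + cP a (Bad L u η) N + L) := by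
    rw [← abs_of_pos hL0, ← abs_mul, abs_of_pos hL0]
    have h6 := abs_le.1 h2
    have h7 := abs_le.1 h4
    rw [abs_le]
    constructor <;> nlinarith
  exact le_of_mul_le_mul_left h5 hL0

/-- **Sufficient sets of places.** -/
theorem suff (S : Set ℕ) (a : ℕ → Fin b)
    (hS : ∀ ε : ℝ, 0 < ε → ∃ K : ℕ, ∀ᶠ N : ℕ in atTop, (miss S K N : ℝ) ≤ ε * N)
    {C : ℝ} (hC0 : 0 ≤ C)
    (hC : ∀ k : ℕ, 0 < k → ∀ w : Fin k → Fin b, ∀ η : ℝ, 0 < η →
      ∀ᶠ N : ℕ in atTop, (cS S a N w : ℝ) ≤ (C / (b : ℝ) ^ k + η) * nS S N)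
    (hm : 0 < m) (u : Fin m → Fin b) :
    Tendsto (fun N : ℕ => (cS Set.univ a N u : ℝ) / N) atTop (𝓝 (pb b m)) := by
  classical
  have hb : (0 : ℝ) < b := by exact_mod_cast Nat.pos_of_ne_zero (NeZero.ne b)
  rw [Metric.tendsto_nhds]
  intro ε0 hε0
  set η : ℝ := ε0 / 8 with hη
  have hη0 : 0 < η := by positivity
  obtain ⟨K, hK⟩ := hS (ε0 / 8) (by positivity)
  -- the length of the windows
  obtain ⟨L, hL1, hL2⟩ : ∃ L : ℕ, 0 < L ∧ K * C * (2 * m / (η ^ 2 * L)) ≤ ε0 / 8 := by
    obtain ⟨L, hL⟩ := exists_nat_gt (K * C * (2 * m) / (η ^ 2 * (ε0 / 8)))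
    have hL0 : (0 : ℝ) < L := lt_of_le_of_lt (by positivity) hL
    refine ⟨L, by exact_mod_cast hL0, ?_⟩
    rw [div_lt_iff₀ (by positivity)] at hL
    rw [← mul_div_assoc, div_le_iff₀ (by positivity)]
    linarith
  set M := L + m with hM
  set W : ℝ := ((wP (Bad L u η)).card : ℝ) with hW
  have hW0 : 0 ≤ W := Nat.cast_nonneg _
  have hW1 : W ≤ 2 * m / (η ^ 2 * L) * (b : ℝ) ^ M := card_bad u hη0 hL1
  set D : ℝ := 1 + ∑ j ∈ Finset.range K, (b : ℝ) ^ j * W with hD
  have hD0 : 1 ≤ D := by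
    have : 0 ≤ ∑ j ∈ Finset.range K, (b : ℝ) ^ j * W :=
      Finset.sum_nonneg fun j _ => by positivity
    linarith
  set η' : ℝ := ε0 / 8 / D with hη'
  have hη'0 : 0 < η' := by positivity
  have hall : ∀ᶠ N : ℕ in atTop, ∀ j ∈ Finset.range K, ∀ v : Fin (j + M) → Fin b,
      (cS S a N v : ℝ) ≤ (C / (b : ℝ) ^ (j + M) + η') * nS S N := by
    rw [Filter.eventually_all_finset]
    intro j _
    rw [Filter.eventually_all]
    intro v
    exact hC (j + M) (by omega) v η' hη'0
  obtain ⟨N0, hN0⟩ := exists_nat_gt ((K + L) / (ε0 / 8))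
  filter_upwards [hK, hall, eventually_ge_atTop N0, eventually_gt_atTop 0] with N a1 a2 a3 a4
  have hN : (0 : ℝ) < N := by exact_mod_cast a4
  have hKL : (K : ℝ) + L ≤ ε0 / 8 * N := by
    have h1 : (N0 : ℝ) ≤ N := by exact_mod_cast a3
    rw [div_lt_iff₀ (by positivity)] at hN0
    nlinarith
  have hnS : (nS S N : ℝ) ≤ N := by exact_mod_cast nS_le S N
  have hnS0 : (0 : ℝ) ≤ nS S N := Nat.cast_nonneg _
  -- the words in the windows
  have hQ : ∀ j ∈ Finset.range K, (cQ S a (Bad L u η) j N : ℝ) ≤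
      (C * (W / (b : ℝ) ^ M) + η' * ((b : ℝ) ^ j * W)) * N := by
    intro j hj
    rw [split]
    push_cast
    have h1 : ∀ v ∈ wP (fun v : Fin (j + M) → Fin b => Bad L u η (fun i => v (Fin.natAdd j i))),
        (cS S a N v : ℝ) ≤ (C / (b : ℝ) ^ (j + M) + η') * N := by
      intro v _
      refine (a2 j hj v).trans ?_
      exact mul_le_mul_of_nonneg_left hnS (by positivity)
    refine (Finset.sum_le_sum h1).trans ?_
    rw [Finset.sum_const, nsmul_eq_mul, card_suffix]
    push_cast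
    rw [← hW, pow_add]
    have hbj : (0 : ℝ) < (b : ℝ) ^ j := by positivity
    have hbM : (0 : ℝ) < (b : ℝ) ^ M := by positivity
    apply le_of_eq
    field_simp
  have hsum : ∑ j ∈ Finset.range K, (cQ S a (Bad L u η) j N : ℝ) ≤ ε0 / 4 * N := by
    refine (Finset.sum_le_sum hQ).trans ?_
    rw [← Finset.sum_mul]
    apply mul_le_mul_of_nonneg_right _ hN.le
    rw [Finset.sum_add_distrib, Finset.sum_const, Finset.card_range, nsmul_eq_mul,
      ← Finset.mul_sum]
    have h1 : W / (b : ℝ) ^ M ≤ 2 * m / (η ^ 2 * L) := by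
      rw [div_le_iff₀ (by positivity)]
      exact hW1
    have h2 : (K : ℝ) * (C * (W / (b : ℝ) ^ M)) ≤ ε0 / 8 := by
      refine le_trans ?_ hL2
      rw [← mul_assoc]
      exact mul_le_mul_of_nonneg_left h1 (by positivity)
    have h3 : η' * ∑ j ∈ Finset.range K, (b : ℝ) ^ j * W ≤ ε0 / 8 := by
      have h4 : ∑ j ∈ Finset.range K, (b : ℝ) ^ j * W ≤ D := by
        rw [hD]
        linarith
      calc _ ≤ η' * D := mul_le_mul_of_nonneg_left h4 hη'0.le
        _ = ε0 / 8 := by
          rw [hη']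
          field_simp
    linarith
  have hcP : (cP a (Bad L u η) N : ℝ) ≤ K + ε0 / 8 * N + ε0 / 4 * N := by
    have h1 := cP_le S a (Bad L u η) K N
    have h2 : (cP a (Bad L u η) N : ℝ) ≤
        K + miss S K N + ∑ j ∈ Finset.range K, (cQ S a (Bad L u η) j N : ℝ) := by
      exact_mod_cast h1
    linarith
  have hav := average a u hL1 hη0 N
  rw [Real.dist_eq]
  have e : (cS Set.univ a N u : ℝ) / N - pb b m = ((cS Set.univ a N u : ℝ) - pb b m * N) / N := by
    field_simp
  rw [e, abs_div, abs_of_pos hN, div_lt_iff₀ hN]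
  have : η * N = ε0 / 8 * N := by rw [hη]
  nlinarith

end Pool.Agent.Helper84.Places
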