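import Mathlib

/-!
Words of digits at the places of a set: sufficient sets of places.
-/

set_option autoImplicit false

namespace Pool.Agent.Helper84.Places

open Finset Filter Topology

variable {b : ℕ}

/-- the word of length `k` at the place `i` -/
def wd (a : ℕ → Fin b) (k i : ℕ) : Fin k → Fin b := fun j => a (i + j)

open Classical in
/-- the number of the `i < N` in `S` at which the word `w` stands -/
noncomputable def cS (S : Set ℕ) (a : ℕ → Fin b) (N : ℕ) {k : ℕ} (w : Fin k → Fin b) : ℕ :=
  ((Finset.range N).filter fun i => i ∈ S ∧ wd a k i = w).card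

open Classical in
/-- the number of the elements of `S` below `N` -/
noncomputable def nS (S : Set ℕ) (N : ℕ) : ℕ := ((Finset.range N).filter fun i => i ∈ S).card

open Classical in
/-- the number of the places `n < N` without an element of `S` in `[n, n + K)` -/
noncomputable def miss (S : Set ℕ) (K N : ℕ) : ℕ :=
  ((Finset.range N).filter fun n => ∀ j < K, n + j ∉ S).card

open Classical in
/-- the number of the places `n < N` with a word in `P` -/
noncomputable def cP (a : ℕ → Fin b) {M : ℕ} (P : (Fin M → Fin b) → Prop) (N : ℕ) : ℕ :=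
  ((Finset.range N).filter fun n => P (wd a M n)).card

open Classical in
/-- the number of the `s < N` in `S` with a word in `P` at the place `s + j` -/
noncomputable def cQ (S : Set ℕ) (a : ℕ → Fin b) {M : ℕ} (P : (Fin M → Fin b) → Prop)
    (j N : ℕ) : ℕ :=
  ((Finset.range N).filter fun s => s ∈ S ∧ P (wd a M (s + j))).card

open Classical in
/-- the words in `P` -/
noncomputable def wP {M : ℕ} (P : (Fin M → Fin b) → Prop) : Finset (Fin M → Fin b) :=
  Finset.univ.filter P

lemma mem_wP {M : ℕ} (P : (Fin M → Fin b) → Prop) (w : Fin M → Fin b) : w ∈ wP P ↔ P w := by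
  unfold wP
  simp

lemma nS_le (S : Set ℕ) (N : ℕ) : nS S N ≤ N := by
  classical
  unfold nS
  calc _ ≤ (Finset.range N).card := Finset.card_filter_le _ _
    _ = N := Finset.card_range N

/-- the windows before a place -/
lemma cP_le (S : Set ℕ) (a : ℕ → Fin b) {M : ℕ} (P : (Fin M → Fin b) → Prop) (K N : ℕ) :
    cP a P N ≤ K + miss S K N + ∑ j ∈ Finset.range K, cQ S a P j N := by
  classical
  unfold cQ miss
  have hsub : ((Finset.range N).filter fun n => P (wd a M n)) ⊆
      (Finset.range K ∪ ((Finset.range N).filter fun n => ∀ j < K, n + j ∉ S).image (· + (K - 1)))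
        ∪ (Finset.range K).biUnion fun j =>
          ((Finset.range N).filter (fun s => s ∈ S ∧ P (wd a M (s + j)))).image (· + j) := by
    intro n hn
    rw [Finset.mem_filter, Finset.mem_range] at hn
    rw [Finset.mem_union, Finset.mem_union]
    by_cases hnK : n < K
    · exact Or.inl (Or.inl (Finset.mem_range.2 hnK))
    by_cases hex : ∃ j < K, n - j ∈ S
    · right
      obtain ⟨j, hj, hjS⟩ := hex
      rw [Finset.mem_biUnion]
      refine ⟨j, Finset.mem_range.2 hj, ?_⟩
      rw [Finset.mem_image]
      refine ⟨n - j, ?_, by omega⟩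
      rw [Finset.mem_filter, Finset.mem_range]
      refine ⟨by omega, hjS, ?_⟩
      have : n - j + j = n := by omega
      rw [this]
      exact hn.2
    · left
      right
      push Not at hex
      rw [Finset.mem_image]
      rcases Nat.eq_zero_or_pos K with hK | hK
      · refine ⟨n, ?_, by omega⟩
        rw [Finset.mem_filter, Finset.mem_range]
        exact ⟨hn.1, fun j hj => by omega⟩
      · refine ⟨n - (K - 1), ?_, by omega⟩
        rw [Finset.mem_filter, Finset.mem_range]
        refine ⟨by omega, fun j hj => ?_⟩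
        have := hex (K - 1 - j) (by omega)
        have e : n - (K - 1 - j) = n - (K - 1) + j := by omega
        rwa [e] at this
  unfold cP
  refine (Finset.card_le_card hsub).trans ?_
  refine (Finset.card_union_le _ _).trans ?_
  apply Nat.add_le_add
  · refine (Finset.card_union_le _ _).trans ?_
    rw [Finset.card_range]
    apply Nat.add_le_add_left
    exact Finset.card_image_le
  · refine Finset.card_biUnion_le.trans ?_
    exact Finset.sum_le_sum fun j _ => Finset.card_image_le

/-- splitting according to the words -/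
lemma split (S : Set ℕ) (a : ℕ → Fin b) {M : ℕ} (P : (Fin M → Fin b) → Prop) (j N : ℕ) :
    cQ S a P j N =
      ∑ v ∈ wP (fun v : Fin (j + M) → Fin b => P (fun i => v (Fin.natAdd j i))), cS S a N v := by
  classical
  unfold cQ wP
  have e : ∀ s, (fun i : Fin M => wd a (j + M) s (Fin.natAdd j i)) = wd a M (s + j) := by
    intro s
    funext i
    unfold wd
    rw [Fin.val_natAdd, add_assoc]
  rw [Finset.card_eq_sum_card_fiberwise (f := fun s => wd a (j + M) s)
    (t := Finset.univ.filter (fun v : Fin (j + M) → Fin b => P (fun i => v (Fin.natAdd j i))))]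
  · apply Finset.sum_congr rfl
    intro v hv
    rw [Finset.mem_filter] at hv
    unfold cS
    congr 1
    ext s
    simp only [Finset.mem_filter, Finset.mem_range]
    constructor
    · rintro ⟨⟨h1, h2, -⟩, h3⟩
      exact ⟨h1, h2, h3⟩
    · rintro ⟨h1, h2, h3⟩
      refine ⟨⟨h1, h2, ?_⟩, h3⟩
      rw [← e s, h3]
      exact hv.2
  · intro s hs
    simp only [Finset.coe_filter, Set.mem_ofPred_eq, Finset.mem_univ, true_and,
      Finset.mem_range] at hs ⊢
    rw [e s]
    exact hs.2.2

/-- the number of the longer words -/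
lemma card_suffix {M : ℕ} (P : (Fin M → Fin b) → Prop) (j : ℕ) :
    (wP (fun v : Fin (j + M) → Fin b => P (fun i => v (Fin.natAdd j i)))).card =
      b ^ j * (wP P).card := by
  classical
  unfold wP
  rw [Finset.card_filter, Finset.card_filter, Finset.mul_sum]
  have h1 : ∑ v : Fin (j + M) → Fin b, (if P (fun i => v (Fin.natAdd j i)) then 1 else 0) =
      ∑ x : Fin j → Fin b, ∑ w : Fin M → Fin b, (if P w then 1 else 0) := by
    rw [← (Fin.appendEquiv j M).sum_comp, Fintype.sum_prod_type]
    apply Finset.sum_congr rfl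
    intro x _
    apply Finset.sum_congr rfl
    intro w _
    have : (fun i => (Fin.appendEquiv j M) (x, w) (Fin.natAdd j i)) = w := by
      funext i
      simp [Fin.appendEquiv]
    rw [this]
  rw [h1, Finset.sum_const, Finset.card_univ, Fintype.card_fun, Fintype.card_fin,
    Fintype.card_fin, smul_eq_mul, Finset.mul_sum]

/-! ### the second moment -/

/-- the number of words with prescribed letters -/
lemma card_fixed (M : ℕ) (T : Finset (Fin M)) (c : Fin M → Fin b) :
    (Finset.univ.filter (fun w : Fin M → Fin b => ∀ j ∈ T, w j = c j)).card =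
      b ^ (M - T.card) := by
  classical
  have h : (Finset.univ.filter (fun w : Fin M → Fin b => ∀ j ∈ T, w j = c j)) =
      Fintype.piFinset (fun j => if j ∈ T then {c j} else (Finset.univ : Finset (Fin b))) := by
    ext w
    simp only [Finset.mem_filter, Finset.mem_univ, true_and, Fintype.mem_piFinset]
    constructor
    · intro h j
      split_ifs with hj
      · rw [Finset.mem_singleton]
        exact h j hj
      · exact Finset.mem_univ _
    · intro h j hj
      have := h j
      rw [if_pos hj, Finset.mem_singleton] at this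
      exact this
  rw [h, Fintype.card_piFinset]
  have h2 : ∀ j, (if j ∈ T then ({c j} : Finset (Fin b)) else Finset.univ).card =
      if j ∈ T then 1 else b := by
    intro j
    split_ifs <;> simp
  simp_rw [h2]
  rw [Finset.prod_ite]
  simp only [Finset.prod_const_one, one_mul, Finset.prod_const]
  congr 1
  rw [Finset.filter_not, Finset.card_sdiff_of_subset (Finset.filter_subset _ _)]
  simp

variable {L m : ℕ}

/-- the places of the letters of a word which begins at `i` -/
def pos (i : Fin L) : Fin m ↪ Fin (L + m) :=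
  ⟨fun j => ⟨i + j, by omega⟩, by
    intro x y h
    rw [Fin.ext_iff] at h ⊢
    simp only at h
    omega⟩

/-- the set of these places -/
def T (m : ℕ) (i : Fin L) : Finset (Fin (L + m)) := Finset.univ.map (pos i)

lemma card_T (i : Fin L) : (T m i).card = m := by
  unfold T
  rw [Finset.card_map, Finset.card_univ, Fintype.card_fin]

/-- the word `u` stands at the place `i` in `w` -/
def At (u : Fin m → Fin b) (i : Fin L) (w : Fin (L + m) → Fin b) : Prop :=
  ∀ j : Fin m, w (pos i j) = u j

variable [NeZero b]

/-- the letters -/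
def cc (u : Fin m → Fin b) (i : Fin L) (t : Fin (L + m)) : Fin b :=
  if h : (t : ℕ) - i < m then u ⟨t - i, h⟩ else 0

lemma cc_pos (u : Fin m → Fin b) (i : Fin L) (j : Fin m) : cc u i (pos i j) = u j := by
  have h : ((pos i j : Fin (L + m)) : ℕ) - i < m := by
    have : ((pos i j : Fin (L + m)) : ℕ) = i + j := rfl
    omega
  unfold cc
  rw [dif_pos h]
  congr 1
  rw [Fin.ext_iff]
  have : ((pos i j : Fin (L + m)) : ℕ) = i + j := rfl
  simp only
  omega

lemma At_iff (u : Fin m → Fin b) (i : Fin L) (w : Fin (L + m) → Fin b) :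
    At u i w ↔ ∀ t ∈ T m i, w t = cc u i t := by
  unfold At T
  constructor
  · intro h t ht
    rw [Finset.mem_map] at ht
    obtain ⟨j, -, rfl⟩ := ht
    rw [cc_pos]
    exact h j
  · intro h j
    rw [← cc_pos u i j]
    exact h _ (Finset.mem_map_of_mem _ (Finset.mem_univ j))

lemma card_At (u : Fin m → Fin b) (i : Fin L) : (wP (At u i)).card = b ^ L := by
  classical
  have h : wP (At u i) = Finset.univ.filter
      (fun w : Fin (L + m) → Fin b => ∀ t ∈ T m i, w t = cc u i t) := by
    ext w
    rw [mem_wP, At_iff]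
    simp
  rw [h, card_fixed, card_T, Nat.add_sub_cancel]

lemma card_At2 (u : Fin m → Fin b) {i i' : Fin L} (hi : (i : ℕ) + m ≤ i') :
    (wP (fun w => At u i w ∧ At u i' w)).card = b ^ (L - m) := by
  classical
  have hdisj : Disjoint (T m i) (T m i') := by
    rw [Finset.disjoint_left]
    intro t h1 h2
    unfold T at h1 h2
    rw [Finset.mem_map] at h1 h2
    obtain ⟨j, -, rfl⟩ := h1
    obtain ⟨j', -, h3⟩ := h2
    rw [Fin.ext_iff] at h3
    have e1 : ((pos i j : Fin (L + m)) : ℕ) = i + j := rfl
    have e2 : ((pos i' j' : Fin (L + m)) : ℕ) = i' + j' := rfl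
    omega
  have h : wP (fun w => At u i w ∧ At u i' w) = Finset.univ.filter
      (fun w : Fin (L + m) → Fin b => ∀ t ∈ T m i ∪ T m i',
        w t = if t ∈ T m i then cc u i t else cc u i' t) := by
    ext w
    rw [mem_wP, At_iff, At_iff]
    simp only [Finset.mem_filter, Finset.mem_univ, true_and, Finset.mem_union]
    constructor
    · rintro ⟨h1, h2⟩ t ht
      split_ifs with h3
      · exact h1 t h3
      · rcases ht with ht | ht
        · exact absurd ht h3
        · exact h2 t ht
    · intro h
      refine ⟨fun t ht => ?_, fun t ht => ?_⟩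
      · have := h t (Or.inl ht)
        rwa [if_pos ht] at this
      · have := h t (Or.inr ht)
        rwa [if_neg (Finset.disjoint_right.1 hdisj ht)] at this
  rw [h, card_fixed, Finset.card_union_of_disjoint hdisj, card_T, card_T]
  congr 1
  omega

open Classical in
/-- the indicator -/
noncomputable def X (u : Fin m → Fin b) (i : Fin L) (w : Fin (L + m) → Fin b) : ℝ :=
  if At u i w then 1 else 0

omit [NeZero b] in
lemma X_mem (u : Fin m → Fin b) (i : Fin L) (w : Fin (L + m) → Fin b) :
    0 ≤ X u i w ∧ X u i w ≤ 1 := by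
  unfold X
  split_ifs <;> norm_num

lemma sum_X (u : Fin m → Fin b) (i : Fin L) : ∑ w, X u i w = (b : ℝ) ^ L := by
  classical
  have h : ∑ w, X u i w = ((wP (At u i)).card : ℝ) := by
    unfold X wP
    rw [Finset.sum_boole]
  rw [h, card_At]
  push_cast
  rfl

lemma sum_XX (u : Fin m → Fin b) {i i' : Fin L} (hi : (i : ℕ) + m ≤ i') :
    ∑ w, X u i w * X u i' w = (b : ℝ) ^ (L - m) := by
  classical
  have h : ∑ w, X u i w * X u i' w = ((wP (fun w => At u i w ∧ At u i' w)).card : ℝ) := by
    unfold X wP
    rw [← Finset.sum_boole]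
    apply Finset.sum_congr rfl
    intro w _
    by_cases h1 : At u i w <;> by_cases h2 : At u i' w <;> simp [h1, h2]
  rw [h, card_At2 u hi]
  push_cast
  rfl

/-- the expected frequency -/
noncomputable def pb (b m : ℕ) : ℝ := 1 / (b : ℝ) ^ m

omit [NeZero b] in
lemma pb_mem [NeZero b] : 0 < pb b m ∧ pb b m ≤ 1 := by
  have h1 : (1 : ℝ) ≤ b := by exact_mod_cast Nat.one_le_iff_ne_zero.2 (NeZero.ne b)
  have h2 : (1 : ℝ) ≤ (b : ℝ) ^ m := one_le_pow₀ h1
  unfold pb
  constructor
  · positivity
  · rw [div_le_one (by linarith)]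
    exact h2

lemma cov_zero (u : Fin m → Fin b) {i i' : Fin L} (hi : (i : ℕ) + m ≤ i') :
    ∑ w, (X u i w - pb b m) * (X u i' w - pb b m) = 0 := by
  have hb : (0 : ℝ) < b := by exact_mod_cast Nat.pos_of_ne_zero (NeZero.ne b)
  have e : ∀ w, (X u i w - pb b m) * (X u i' w - pb b m) =
      X u i w * X u i' w - pb b m * X u i w - pb b m * X u i' w + pb b m ^ 2 := fun w => by ring
  simp_rw [e]
  rw [Finset.sum_add_distrib, Finset.sum_sub_distrib, Finset.sum_sub_distrib, ← Finset.mul_sum,
    ← Finset.mul_sum, sum_X, sum_X, sum_XX u hi, Finset.sum_const, Finset.card_univ,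
    Fintype.card_fun, Fintype.card_fin, Fintype.card_fin, nsmul_eq_mul]
  unfold pb
  have hL : L = (L - m) + m := by omega
  set r := L - m with hr
  rw [hL]
  push_cast
  rw [pow_add, pow_add]
  field_simp
  ring

lemma second_moment (u : Fin m → Fin b) :
    ∑ w, (∑ i : Fin L, (X u i w - pb b m)) ^ 2 ≤ (L * (2 * m)) * (b : ℝ) ^ (L + m) := by
  classical
  have h1 : ∀ w, (∑ i : Fin L, (X u i w - pb b m)) ^ 2 =
      ∑ i : Fin L, ∑ i' : Fin L, (X u i w - pb b m) * (X u i' w - pb b m) := by
    intro w
    rw [sq, Finset.sum_mul_sum]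
  simp_rw [h1]
  rw [Finset.sum_comm]
  have h2 : ∀ i : Fin L, ∑ w, ∑ i' : Fin L, (X u i w - pb b m) * (X u i' w - pb b m) ≤
      (2 * m) * (b : ℝ) ^ (L + m) := by
    intro i
    rw [Finset.sum_comm]
    have h3 : ∀ i' : Fin L, ∑ w, (X u i w - pb b m) * (X u i' w - pb b m) ≤
        if (i' : ℕ) < i + m ∧ (i : ℕ) < i' + m then (b : ℝ) ^ (L + m) else 0 := by
      intro i'
      split_ifs with h
      · have h4 : ∀ w ∈ (Finset.univ : Finset (Fin (L + m) → Fin b)),
            (X u i w - pb b m) * (X u i' w - pb b m) ≤ 1 := by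
          intro w _
          have a1 := X_mem u i w
          have a2 := X_mem u i' w
          have a3 := pb_mem (b := b) (m := m)
          have b1 : |X u i w - pb b m| ≤ 1 := abs_le.2 ⟨by linarith, by linarith⟩
          have b2 : |X u i' w - pb b m| ≤ 1 := abs_le.2 ⟨by linarith, by linarith⟩
          calc _ ≤ |(X u i w - pb b m) * (X u i' w - pb b m)| := le_abs_self _
            _ = |X u i w - pb b m| * |X u i' w - pb b m| := abs_mul _ _
            _ ≤ 1 * 1 := mul_le_mul b1 b2 (abs_nonneg _) zero_le_one
            _ = 1 := one_mul 1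
        refine (Finset.sum_le_sum h4).trans (le_of_eq ?_)
        rw [Finset.sum_const, Finset.card_univ, Fintype.card_fun, Fintype.card_fin,
          Fintype.card_fin, nsmul_eq_mul, mul_one]
        push_cast
        rfl
      · rcases not_and_or.1 h with h | h
        · exact (cov_zero u (by omega)).le
        · have := cov_zero u (i := i') (i' := i) (by omega)
          rw [← this]
          exact (Finset.sum_congr rfl fun w _ => mul_comm _ _).le
    refine (Finset.sum_le_sum fun i' _ => h3 i').trans ?_
    rw [← Finset.sum_filter, Finset.sum_const, nsmul_eq_mul]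
    apply mul_le_mul_of_nonneg_right _ (by positivity)
    have h5 : (Finset.univ.filter fun i' : Fin L => (i' : ℕ) < i + m ∧ (i : ℕ) < i' + m).card ≤
        (Finset.Ico ((i : ℕ) + 1 - m) (i + m)).card := by
      apply Finset.card_le_card_of_injOn (fun i' : Fin L => (i' : ℕ))
      · intro i' hi'
        simp only [Finset.coe_filter, Finset.mem_univ, true_and, Set.mem_ofPred_eq,
          Finset.coe_Ico, Set.mem_Ico] at hi' ⊢
        omega
      · intro x _ y _ hxy
        exact Fin.ext hxy
    rw [Nat.card_Ico] at h5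
    have h6 : (i : ℕ) + m - (i + 1 - m) ≤ 2 * m := by omega
    exact_mod_cast h5.trans h6
  refine (Finset.sum_le_sum fun i _ => h2 i).trans (le_of_eq ?_)
  rw [Finset.sum_const, Finset.card_univ, Fintype.card_fin, nsmul_eq_mul]
  ring

/-- the words in which the frequency of `u` is not near the expected one -/
def Bad (L : ℕ) (u : Fin m → Fin b) (η : ℝ) (w : Fin (L + m) → Fin b) : Prop :=
  η * L < |∑ i : Fin L, (X u i w - pb b m)|

lemma card_bad (u : Fin m → Fin b) {η : ℝ} (hη : 0 < η) (hL : 0 < L) :
    ((wP (Bad L u η)).card : ℝ) ≤ 2 * m / (η ^ 2 * L) * (b : ℝ) ^ (L + m) := by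
  classical
  have hL0 : (0 : ℝ) < L := by exact_mod_cast hL
  have h1 : ((wP (Bad L u η)).card : ℝ) * (η * L) ^ 2 ≤
      ∑ w, (∑ i : Fin L, (X u i w - pb b m)) ^ 2 := by
    calc ((wP (Bad L u η)).card : ℝ) * (η * L) ^ 2 = ∑ _w ∈ wP (Bad L u η), (η * L) ^ 2 := by
          rw [Finset.sum_const, nsmul_eq_mul]
      _ ≤ ∑ w ∈ wP (Bad L u η), (∑ i : Fin L, (X u i w - pb b m)) ^ 2 := by
          apply Finset.sum_le_sum
          intro w hw
          rw [mem_wP] at hw
          unfold Bad at hw
          rw [← sq_abs (∑ i : Fin L, (X u i w - pb b m))]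
          exact pow_le_pow_left₀ (by positivity) hw.le 2
      _ ≤ _ := Finset.sum_le_sum_of_subset_of_nonneg (Finset.subset_univ _)
          fun w _ _ => sq_nonneg _
  have h2 := h1.trans (second_moment u)
  have h3 : 0 < (η * L) ^ 2 := by positivity
  rw [← le_div_iff₀ h3] at h2
  refine h2.trans (le_of_eq ?_)
  field_simp

end Pool.Agent.Helper84.Places
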